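import Mathlib

/-!
# Two permutations with the same square on an elementary abelian 2-group

Let `V` be a finite elementary abelian 2-group, let `A` and `B` be permutations of `V` with `A 0 = 0`,
`B z = z + A z` and `A² = B²`. Then `V` is trivial.
-/

set_option autoImplicit false

namespace Pool.Agent.H680Q

open Equiv

theorem apply_inv_self' {V : Type*} (p : Perm V) (z : V) : p (p⁻¹ z) = z :=
  Equiv.apply_symm_apply p z

theorem inv_apply_self' {V : Type*} (p : Perm V) (z : V) : p⁻¹ (p z) = z :=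
  Equiv.symm_apply_apply p z

/-- Fixed points in an invariant set. -/
theorem parity_fix {V : Type*} [Fintype V] [DecidableEq V] (P : V → Prop) [DecidablePred P]
    (σ : Perm V) (hσ : ∀ z, P z ↔ P (σ z)) (s : ℕ) (hs : ∀ z, P z → (σ ^ 2 ^ s) z = z) :
    (Finset.univ.filter (fun z => P z ∧ σ z = z)).card % 2 =
      (Finset.univ.filter (fun z => P z)).card % 2 := by
  classical
  set τ : Perm {z // P z} := σ.subtypePerm (fun z => (hσ z).symm) with hτ
  have hp : ∀ (k : ℕ) (z : {z // P z}), (((τ ^ k) z : {z // P z}) : V) = (σ ^ k) (z : V) := by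
    intro k
    induction k with
    | zero => intro z; simp
    | succ k ih =>
      intro z
      rw [pow_succ', pow_succ', Perm.mul_apply, Perm.mul_apply, ← ih]
      rfl
  have h1 : τ ^ 2 ^ s = 1 := by
    ext z
    rw [hp, hs z z.2]
    rfl
  have : Fact (Nat.Prime 2) := ⟨Nat.prime_two⟩
  have h2 := Perm.card_compl_support_modEq (p := 2) (n := s) h1
  have h3 : Fintype.card {z // P z} = (Finset.univ.filter (fun z => P z)).card :=
    Fintype.card_subtype _
  have h4 : (τ.supportᶜ).card = (Finset.univ.filter (fun z => P z ∧ σ z = z)).card := by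
    refine Finset.card_bij (fun z _ => (z : V)) ?_ ?_ ?_
    · intro z hz
      rw [Finset.mem_compl, Perm.mem_support, not_not] at hz
      simp only [Finset.mem_filter, Finset.mem_univ, true_and]
      refine ⟨z.2, ?_⟩
      have := congrArg Subtype.val hz
      exact this
    · intro z _ w _ h
      exact Subtype.ext h
    · intro z hz
      simp only [Finset.mem_filter, Finset.mem_univ, true_and] at hz
      refine ⟨⟨z, hz.1⟩, ?_, rfl⟩
      rw [Finset.mem_compl, Perm.mem_support, not_not]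
      exact Subtype.ext hz.2
  rw [h3, h4] at h2
  exact h2

theorem core {V : Type*} [AddCommGroup V] [Fintype V] [DecidableEq V] [Nontrivial V]
    (h2 : ∀ z : V, z + z = 0) (A B : Perm V) (hA0 : A 0 = 0) (hB : ∀ z, B z = z + A z)
    (hAB : A * A = B * B) : False := by
  classical
  -- the number of elements is even
  have hcard : Fintype.card V % 2 = 0 := by
    obtain ⟨v, hv⟩ := exists_ne (0 : V)
    have h1 : addOrderOf v = 2 := by
      apply addOrderOf_eq_prime
      · rw [two_nsmul]; exact h2 v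
      · exact hv
    have h3 := addOrderOf_dvd_card (x := v)
    rw [h1] at h3
    exact Nat.mod_eq_zero_of_dvd h3
  set Z : Perm V := A * A with hZ
  have hZB : Z = B * B := hAB
  set c : Perm V := A⁻¹ * B with hc
  -- commutation
  have hZA : Commute Z A := by
    rw [hZ]; exact (Commute.refl A).mul_left (Commute.refl A)
  have hZBc : Commute Z B := by
    rw [hZB]; exact (Commute.refl B).mul_left (Commute.refl B)
  have hZc : Commute Z c := hZA.inv_right.mul_right hZBc
  have hAc : A * c = B := by rw [hc]; group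
  have hAcA : A * c * A⁻¹ = c⁻¹ := by
    have h5 : B * A⁻¹ = B⁻¹ * A := by
      have h6 : B * B = A * A := hAB.symm
      calc B * A⁻¹ = B⁻¹ * (B * B) * A⁻¹ := by group
        _ = B⁻¹ * (A * A) * A⁻¹ := by rw [h6]
        _ = B⁻¹ * A := by group
    rw [hAc, h5, hc]; group
  have hcA : A * c = c⁻¹ * A := by
    rw [← hAcA]; group
  -- the order
  obtain ⟨s, M, hM, hK⟩ : ∃ s M : ℕ, Odd M ∧ Fintype.card (Perm V) = 2 ^ s * M := by
    obtain ⟨s, M, hM, hK⟩ := Nat.exists_eq_two_pow_mul_odd (n := Fintype.card (Perm V))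
      Fintype.card_ne_zero
    exact ⟨s, M, hM, hK⟩
  have hpow : ∀ p : Perm V, (p ^ M) ^ 2 ^ s = 1 := by
    intro p
    rw [← pow_mul, mul_comm, ← hK]
    exact pow_card_eq_one
  -- first: the fixed points of `c ^ M`
  have hn1 := parity_fix (fun _ : V => True) (c ^ M) (fun _ => Iff.rfl) s
    (fun z _ => by rw [hpow]; rfl)
  have hconj : ∀ k : ℕ, A * c ^ k = (c⁻¹) ^ k * A := by
    intro k
    induction k with
    | zero => simp
    | succ k ih =>
      rw [pow_succ, ← mul_assoc, ih, mul_assoc, hcA, ← mul_assoc, ← pow_succ]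
  have hinvA : ∀ z, (True ∧ (c ^ M) z = z) ↔ (True ∧ (c ^ M) (A z) = A z) := by
    intro z
    have h6 : A ((c ^ M) z) = ((c⁻¹) ^ M) (A z) := by
      have := congrArg (fun p : Perm V => p z) (hconj M)
      simpa [Perm.mul_apply] using this
    rw [true_and, true_and]
    constructor
    · intro h
      rw [h] at h6
      rw [inv_pow] at h6
      have h7 := congrArg (c ^ M) h6
      rw [apply_inv_self'] at h7
      exact h7
    · intro h
      have h7 : ((c⁻¹) ^ M) (A z) = A z := by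
        rw [inv_pow, Perm.inv_eq_iff_eq]
        exact h.symm
      rw [h7] at h6
      exact A.injective h6
  have hinvAM : ∀ (k : ℕ) (z : V), (True ∧ (c ^ M) z = z) ↔
      (True ∧ (c ^ M) ((A ^ k) z) = (A ^ k) z) := by
    intro k
    induction k with
    | zero => intro z; simp
    | succ k ih =>
      intro z
      rw [ih z, hinvA, pow_succ', Perm.mul_apply]
  have hn2 := parity_fix (fun z : V => True ∧ (c ^ M) z = z) (A ^ M) (hinvAM M) s
    (fun z _ => by rw [hpow]; rfl)
  have hB0 : B 0 = 0 := by rw [hB, hA0, add_zero]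
  have hc0 : c 0 = 0 := by
    rw [hc, Perm.mul_apply, hB0, Perm.inv_eq_iff_eq, hA0]
  have hfix0 : ∀ (p : Perm V), p 0 = 0 → ∀ k : ℕ, (p ^ k) 0 = 0 := by
    intro p hp k
    induction k with
    | zero => rfl
    | succ k ih => rw [pow_succ', Perm.mul_apply, ih, hp]
  -- a nonzero common fixed point
  obtain ⟨z, hz0, hzc, hzA⟩ : ∃ z : V, z ≠ 0 ∧ (c ^ M) z = z ∧ (A ^ M) z = z := by
    have h6 : (Finset.univ.filter (fun z : V => (True ∧ (c ^ M) z = z) ∧ (A ^ M) z = z)).card % 2
        = 0 := by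
      rw [hn2, hn1]
      simpa using hcard
    have h7 : (0 : V) ∈ Finset.univ.filter
        (fun z : V => (True ∧ (c ^ M) z = z) ∧ (A ^ M) z = z) := by
      simp only [Finset.mem_filter, Finset.mem_univ, true_and]
      exact ⟨hfix0 c hc0 M, hfix0 A hA0 M⟩
    by_contra hne
    push Not at hne
    have h8 : Finset.univ.filter (fun z : V => (True ∧ (c ^ M) z = z) ∧ (A ^ M) z = z) =
        {0} := by
      ext w
      simp only [Finset.mem_filter, Finset.mem_univ, true_and, Finset.mem_singleton]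
      constructor
      · intro hw
        by_contra hw0
        exact hne w hw0 hw.1 hw.2
      · rintro rfl
        exact ⟨hfix0 c hc0 M, hfix0 A hA0 M⟩
    rw [h8, Finset.card_singleton] at h6
    omega
  -- characteristic two
  have h22 : ∀ x y : V, x + (x + y) = y := by
    intro x y; rw [← add_assoc, h2, zero_add]
  have key0 : ∀ p : V, p = A (B p) + B (A p) := by
    intro p
    have e1 : A p + A (A p) = B (A p) := (hB (A p)).symm
    have e2 : B p + A (B p) = B (B p) := (hB (B p)).symm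
    have e3 : A (A p) = B (B p) := by
      have := congrArg (fun q : Perm V => q p) hAB
      exact this
    have e4 : p = A p + B p := by rw [hB]; rw [add_comm p, h22]
    have e5 : A (B p) = B p + B (B p) := by rw [← e2, h22]
    rw [e5, ← e1, e3]
    nth_rewrite 1 [e4]
    have : B p + B (B p) + (A p + B (B p)) = (A p + B p) + (B (B p) + B (B p)) := by abel
    rw [this, h2, add_zero]
  have key1 : ∀ p : V, Z⁻¹ p = c p + c⁻¹ p := by
    intro p
    have e1 := key0 (Z⁻¹ p)
    have e2 : A * B * Z⁻¹ = c := by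
      have : A * B = Z * c := by rw [hZ, hc]; group
      rw [this, hZc.eq]; group
    have e3 : B * A * Z⁻¹ = c⁻¹ := by
      have : B * A = Z * c⁻¹ := by rw [hZB, hc]; group
      rw [this, hZc.inv_right.eq]; group
    have e4 : A (B (Z⁻¹ p)) = c p := by rw [← e2]; rfl
    have e5 : B (A (Z⁻¹ p)) = c⁻¹ p := by rw [← e3]; rfl
    rw [e4, e5] at e1
    exact e1
  have key2 : ∀ (j : ℕ) (p : V), (Z⁻¹ ^ 2 ^ j) p = (c ^ 2 ^ j) p + (c⁻¹ ^ 2 ^ j) p := by
    intro j
    induction j with
    | zero => intro p; simpa using key1 p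
    | succ j ih =>
      intro p
      have hcm : Commute (Z⁻¹ ^ 2 ^ j) (c ^ 2 ^ j) := (hZc.inv_left.pow_left _).pow_right _
      have hcm' : Commute (Z⁻¹ ^ 2 ^ j) (c⁻¹ ^ 2 ^ j) :=
        (hZc.inv_right.inv_left.pow_left _).pow_right _
      have e1 : (Z⁻¹ ^ 2 ^ (j + 1)) p = (Z⁻¹ ^ 2 ^ j) ((Z⁻¹ ^ 2 ^ j) p) := by
        rw [pow_succ, pow_mul, pow_two, Perm.mul_apply]
      have e2 : (c ^ 2 ^ (j + 1)) p = (c ^ 2 ^ j) ((c ^ 2 ^ j) p) := by
        rw [pow_succ, pow_mul, pow_two, Perm.mul_apply]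
      have e3 : (c⁻¹ ^ 2 ^ (j + 1)) p = (c⁻¹ ^ 2 ^ j) ((c⁻¹ ^ 2 ^ j) p) := by
        rw [pow_succ, pow_mul, pow_two, Perm.mul_apply]
      have e4 : (c ^ 2 ^ j) ((Z⁻¹ ^ 2 ^ j) p) = (Z⁻¹ ^ 2 ^ j) ((c ^ 2 ^ j) p) := by
        rw [← Perm.mul_apply, ← hcm.eq, Perm.mul_apply]
      have e5 : (c⁻¹ ^ 2 ^ j) ((Z⁻¹ ^ 2 ^ j) p) = (Z⁻¹ ^ 2 ^ j) ((c⁻¹ ^ 2 ^ j) p) := by
        rw [← Perm.mul_apply, ← hcm'.eq, Perm.mul_apply]
      rw [e1, ih ((Z⁻¹ ^ 2 ^ j) p), e4, e5, ih, ih, e2, e3]
      have e6 : (c⁻¹ ^ 2 ^ j) ((c ^ 2 ^ j) p) = p := by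
        rw [inv_pow, inv_apply_self']
      have e7 : (c ^ 2 ^ j) ((c⁻¹ ^ 2 ^ j) p) = p := by
        rw [inv_pow, apply_inv_self']
      rw [e6, e7]
      have : ∀ x y : V, x + p + (p + y) = x + y := by
        intro x y
        rw [add_assoc, h22]
      exact this _ _
  -- the exponent
  obtain ⟨j, k, hjk⟩ : ∃ j k : ℕ, 2 ^ (j + 1) = 1 + M * k := by
    have hcop : Nat.Coprime 2 M := (Nat.coprime_two_left).2 hM
    have h6 := Nat.ModEq.pow_totient hcop
    have hM0 : 0 < M := hM.pos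
    have h7 : 0 < Nat.totient M := Nat.totient_pos.2 hM0
    obtain ⟨j, hj⟩ : ∃ j, Nat.totient M = j + 1 := ⟨Nat.totient M - 1, by omega⟩
    rw [hj] at h6
    have h8 : M ∣ 2 ^ (j + 1) - 1 := (Nat.modEq_iff_dvd' Nat.one_le_two_pow).1 h6.symm
    obtain ⟨k, hk⟩ := h8
    refine ⟨j, k, ?_⟩
    have := Nat.one_le_two_pow (n := j + 1)
    omega
  have hfixpow : ∀ (p : Perm V) (w : V), (p ^ M) w = w → (p ^ (1 + M * k)) w = p w := by
    intro p w hw
    rw [pow_add, pow_one, Perm.mul_apply, pow_mul]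
    congr 1
    have : ∀ i : ℕ, ((p ^ M) ^ i) w = w := by
      intro i
      induction i with
      | zero => rfl
      | succ i ih => rw [pow_succ', Perm.mul_apply, ih, hw]
    exact this k
  set U : Perm V := Z⁻¹ ^ 2 ^ j with hU
  set g : Perm V := c ^ 2 ^ j with hg
  -- A z = U⁻¹ z
  have hAU : A z = U⁻¹ z := by
    have e1 : (A ^ (1 + M * k)) z = A z := hfixpow A z hzA
    rw [← hjk] at e1
    have e2 : A ^ 2 ^ (j + 1) = U⁻¹ := by
      rw [hU, hZ, ← inv_pow, inv_inv, ← pow_two, ← pow_mul, pow_succ, mul_comm]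
    rw [e2] at e1
    exact e1.symm
  have hUA : Commute U A := (hZA.inv_left.pow_left _)
  have hUBc : Commute U B := (hZBc.inv_left.pow_left _)
  have hUc : Commute U c := (hZc.inv_left.pow_left _)
  -- U z = z + c⁻¹ z
  have r1 : U z = z + c⁻¹ z := by
    have e1 : A (U z) = z := by
      rw [← Perm.mul_apply, ← hUA.eq, Perm.mul_apply, hAU, apply_inv_self']
    have e2 : B (U z) = c⁻¹ z := by
      have : B = c⁻¹ * A := by rw [← hcA, hAc]
      rw [this, Perm.mul_apply, e1]
    have e3 := hB (U z)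
    rw [e1, e2] at e3
    rw [e3, add_comm (U z), h22]
  -- U (g⁻¹ z) = z + c⁻¹ z
  have r2 : U (g⁻¹ z) = z + c⁻¹ z := by
    have e1 := key2 j (g⁻¹ z)
    rw [← hU, ← hg, apply_inv_self'] at e1
    rw [e1]
    congr 1
    have e2 : (c⁻¹ ^ 2 ^ j) (g⁻¹ z) = (c ^ 2 ^ (j + 1))⁻¹ z := by
      rw [← Perm.mul_apply]
      congr 1
      rw [hg, inv_pow, ← mul_inv_rev, ← pow_add, ← two_mul, ← pow_succ']
    rw [e2, hjk, Perm.inv_eq_iff_eq]
    have e3 : (c ^ M) (c⁻¹ z) = c⁻¹ z := by
      rw [← Perm.mul_apply, ((Commute.refl c).pow_left M).inv_right.eq, Perm.mul_apply, hzc]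
    rw [hfixpow c (c⁻¹ z) e3, apply_inv_self']
  have r3 : g⁻¹ z = z := U.injective (r2.trans r1.symm)
  have r4 : g z = z := by
    rw [Perm.inv_eq_iff_eq] at r3
    exact r3.symm
  have r5 := key2 j z
  rw [← hU, ← hg, inv_pow, ← hg, r3, r4, h2] at r5
  have r6 : U 0 = 0 := by
    have e1 : Z⁻¹ 0 = 0 := by
      rw [Perm.inv_eq_iff_eq, hZ, Perm.mul_apply, hA0, hA0]
    exact hfix0 _ e1 _
  exact hz0 (U.injective (r5.trans r6.symm))

end Pool.Agent.H680Q
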