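import Mathlib
import Pool.Agent.H680Q.Core

set_option autoImplicit false

namespace Pool.Agent.H680Q

open Equiv

/-- The left division of a finite quasigroup: `x · (star x y) = y`. -/
theorem exists_star {S : Type*} [Finite S] (op : S → S → S)
    (hleft : ∀ a b : S, ∃! x : S, op a x = b) (hright : ∀ a b : S, ∃! x : S, op x a = b)
    (hE : ∀ x y : S, op (op (op x y) x) y = x) :
    ∃ st : S → S → S, (∀ x y, op x (st x y) = y) ∧ (∀ x y, st x (op x y) = y) ∧
      (∀ x, Function.Bijective (st x)) ∧ (∀ y, Function.Bijective (fun x => st x y)) ∧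
      (∀ u v, st (st u v) u = st v (st u v)) ∧ (∀ x, st x x = x) := by
  classical
  choose st hst hun using hleft
  have h1 : ∀ x y, op x (st x y) = y := fun x y => hst x y
  have h2 : ∀ x y, st x (op x y) = y := fun x y => ((hun x (op x y)) y rfl).symm
  have h3 : ∀ x, Function.Bijective (st x) := by
    intro x
    rw [← Finite.injective_iff_bijective]
    intro a b hab
    rw [← h1 x a, ← h1 x b, hab]
  have h4 : ∀ y, Function.Bijective (fun x => st x y) := by
    intro y
    rw [← Finite.injective_iff_bijective]
    intro a b hab
    have e1 : op a (st a y) = y := h1 a y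
    have e2 : op b (st a y) = y := by
      have : st a y = st b y := hab
      rw [this]; exact h1 b y
    exact (hright (st a y) y).unique e1 e2
  have h5 : ∀ u v, st (st u v) u = st v (st u v) := by
    intro u v
    set x := st u v with hx
    set y := st x u with hy
    have e1 : op u x = v := h1 u v
    have e2 : op x y = u := h1 x u
    have e3 := hE x y
    rw [e2, e1] at e3
    have e4 := h2 v y
    rw [e3] at e4
    exact e4.symm
  refine ⟨st, h1, h2, h3, h4, h5, ?_⟩
  -- idempotent
  intro x
  -- take `u` with `st u x = x`... from the law with `st u v = u`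
  obtain ⟨v, hv⟩ := (h3 x).2 x
  -- `st x v = x`, so `st x x = st v x`
  have e1 := h5 x v
  rw [hv] at e1
  have e2 : x = v := (h4 x).1 e1
  rw [← e2] at hv
  exact hv

/-- The sum of all elements of a finite abelian group with exactly one element of order `2`. -/
theorem sum_eq_invol {G : Type*} [AddCommGroup G] [Fintype G] [DecidableEq G] (u : G)
    (hu : u ≠ 0) (hu2 : u + u = 0) (h : ∀ v : G, v ≠ 0 → v + v = 0 → v = u) :
    ∑ z : G, z = u := by
  have h1 : ∑ z ∈ (Finset.univ.erase u), z = 0 := by
    refine Finset.sum_involution (fun z _ => -z) ?_ ?_ ?_ ?_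
    · intro z _; exact add_neg_cancel z
    · intro z hz hz0 he
      have h2 : z + z = 0 := by
        nth_rewrite 1 [← he]; exact neg_add_cancel z
      exact (Finset.mem_erase.1 hz).1 (h z hz0 h2)
    · intro z hz
      rw [Finset.mem_erase] at hz ⊢
      refine ⟨?_, Finset.mem_univ _⟩
      intro he
      apply hz.1
      have : z = -u := by rw [← he, neg_neg]
      rw [this]
      exact neg_eq_of_add_eq_zero_left hu2
    · intro z _; exact neg_neg z
  rw [← Finset.add_sum_erase Finset.univ (fun z => z) (Finset.mem_univ u), h1, add_zero]

theorem exists_invol {G : Type*} [AddCommGroup G] [Fintype G] (h : Fintype.card G % 2 = 0) :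
    ∃ u : G, u ≠ 0 ∧ u + u = 0 := by
  classical
  have : Fact (Nat.Prime 2) := ⟨Nat.prime_two⟩
  obtain ⟨u, hu⟩ := exists_prime_addOrderOf_dvd_card (G := G) 2 (Nat.dvd_of_mod_eq_zero h)
  refine ⟨u, ?_, ?_⟩
  · rintro rfl
    rw [addOrderOf_zero] at hu
    omega
  · have := addOrderOf_nsmul_eq_zero u
    rw [hu, two_nsmul] at this
    exact this

/-- Developed over an abelian group: the order is odd. -/
theorem dev_odd {G : Type*} [AddCommGroup G] [Fintype G] (st : G → G → G)
    (hrow : ∀ x, Function.Bijective (st x)) (hcol : ∀ y, Function.Bijective (fun x => st x y))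
    (hlaw : ∀ u v, st (st u v) u = st v (st u v)) (hid : ∀ x, st x x = x)
    (htr : ∀ g x y, st (x + g) (y + g) = st x y + g)
    (h : (∀ x y, st (-x) (-y) = -st x y) ∨
      (∀ u v : G, u ≠ 0 → v ≠ 0 → u + u = 0 → v + v = 0 → u = v)) :
    Fintype.card G % 2 = 1 := by
  classical
  by_contra hne
  have hev : Fintype.card G % 2 = 0 := by omega
  obtain ⟨w, hw0, hw2⟩ := exists_invol hev
  set f : G → G := st 0 with hf
  have hst : ∀ x y, st x y = f (y - x) + x := by
    intro x y
    have := htr x 0 (y - x)
    rw [zero_add, sub_add_cancel] at this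
    exact this
  have hf0 : f 0 = 0 := hid 0
  have hcol0 : Function.Bijective (fun z => f (-z) + z) := by
    have := hcol 0
    have e : (fun x => st x 0) = fun z => f (-z) + z := by
      funext z; rw [hst, zero_sub]
    rwa [e] at this
  rcases h with h | h
  · -- restrict to the elements of order two
    have hodd : ∀ z, f (-z) = -f z := by
      intro z
      have := h 0 z
      rw [neg_zero] at this
      exact this
    let V : AddSubgroup G :=
      { carrier := {z | z + z = 0}
        zero_mem' := by simp
        add_mem' := by
          intro a b ha hb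
          have : a + b + (a + b) = (a + a) + (b + b) := by abel
          rw [Set.mem_ofPred_eq] at *
          rw [this, ha, hb, add_zero]
        neg_mem' := by
          intro a ha
          rw [Set.mem_ofPred_eq] at *
          have : -a + -a = -(a + a) := by abel
          rw [this, ha, neg_zero] }
    have hV : ∀ z : G, z ∈ V ↔ z + z = 0 := fun z => Iff.rfl
    have hneg : ∀ z : G, z + z = 0 → -z = z := fun z hz => neg_eq_of_add_eq_zero_left hz
    have hfV : ∀ z, z ∈ V → f z ∈ V := by
      intro z hz
      rw [hV] at *
      have e := hodd z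
      rw [hneg z hz] at e
      nth_rewrite 1 [e]
      exact neg_add_cancel _
    have hbij : Function.Bijective (fun z : V => (⟨f z, hfV z z.2⟩ : V)) := by
      rw [← Finite.injective_iff_bijective]
      intro a b hab
      exact Subtype.ext ((hrow 0).1 (congrArg Subtype.val hab))
    have hbij' : Function.Bijective
        (fun z : V => (⟨z + f z, V.add_mem z.2 (hfV z z.2)⟩ : V)) := by
      rw [← Finite.injective_iff_bijective]
      intro a b hab
      have e1 : (a : G) + f a = b + f b := congrArg Subtype.val hab
      apply Subtype.ext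
      apply hcol0.1
      change f (-(a : G)) + a = f (-(b : G)) + b
      rw [hneg _ a.2, hneg _ b.2, add_comm, e1, add_comm]
    set A : Perm V := Equiv.ofBijective _ hbij with hA
    set B : Perm V := Equiv.ofBijective _ hbij' with hB
    have hAv : ∀ z : V, ((A z : V) : G) = f z := fun z => rfl
    have hBv : ∀ z : V, ((B z : V) : G) = z + f z := fun z => rfl
    have : Nontrivial V := ⟨⟨⟨w, hw2⟩, 0, fun e => hw0 (congrArg Subtype.val e)⟩⟩
    refine core (V := V) (fun z => Subtype.ext z.2) A B ?_ ?_ ?_
    · exact Subtype.ext hf0
    · intro z; exact Subtype.ext rfl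
    · ext z
      change f (f z) = ((z : G) + f z) + f ((z : G) + f z)
      have e1 := hlaw (z : G) 0
      have e2 : st (z : G) 0 = z + f z := by
        rw [hst, zero_sub, hneg _ z.2, add_comm]
      rw [e2, hst ((z : G) + f z) z] at e1
      have e3 : (z : G) - (z + f z) = f z := by
        rw [sub_add_cancel_left]
        exact hneg _ (hfV z z.2)
      rw [e3] at e1
      have e4 : st 0 ((z : G) + f z) = f ((z : G) + f z) := rfl
      rw [e4] at e1
      rw [← e1]
      have e5 : ((z : G) + f z) + ((z : G) + f z) = 0 := (V.add_mem z.2 (hfV z z.2))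
      have : ((z : G) + f z) + (f (f z) + ((z : G) + f z)) =
        f (f z) + (((z : G) + f z) + ((z : G) + f z)) := by abel
      rw [this, e5, add_zero]
  · have h1 := sum_eq_invol w hw0 hw2 (fun v hv hv2 => h v w hv hw0 hv2 hw2)
    have h2 : ∑ z : G, f z = ∑ z : G, z := Function.Bijective.sum_comp (hrow 0) (fun z => z)
    have h3 : ∑ z : G, (f (-z) + z) = ∑ z : G, z := hcol0.sum_comp (fun z => z)
    have h4 : ∑ z : G, f (-z) = ∑ z : G, f z := Equiv.sum_comp (Equiv.neg G) f
    rw [Finset.sum_add_distrib, h4, h2, h1] at h3
    have : w = 0 := by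
      have h5 : w + w = w + 0 := by rw [h3, add_zero]
      exact add_left_cancel h5
    exact hw0 this

/-- One fixed point and one regular orbit of an abelian group: the order is odd. -/
theorem rot_even {G : Type*} [AddCommGroup G] [Fintype G] (st : Option G → Option G → Option G)
    (hrow : ∀ x, Function.Bijective (st x)) (hcol : ∀ y, Function.Bijective (fun x => st x y))
    (hlaw : ∀ u v, st (st u v) u = st v (st u v)) (hid : ∀ x, st x x = x)
    (htr : ∀ (g : G) x y, st (x.map (· + g)) (y.map (· + g)) = (st x y).map (· + g)) :
    Fintype.card G % 2 = 0 := by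
  classical
  by_contra hne
  have hodd : Fintype.card G % 2 = 1 := by omega
  -- no element of order two
  have hno : ∀ z : G, z + z = 0 → z = 0 := by
    intro z hz
    by_contra hz0
    have h1 : addOrderOf z = 2 := by
      apply addOrderOf_eq_prime
      · rw [two_nsmul]; exact hz
      · exact hz0
    have h3 := addOrderOf_dvd_card (x := z)
    rw [h1] at h3
    omega
  have hσ : ∑ z : G, z = 0 := by
    apply hno
    have h1 : ∑ z : G, (-z) = ∑ z : G, z := Equiv.sum_comp (Equiv.neg G) (fun z => z)
    rw [Finset.sum_neg_distrib] at h1
    nth_rewrite 1 [← h1]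
    exact neg_add_cancel _
  -- the constants
  obtain ⟨hh, hh1⟩ := (hrow (some 0)).2 none
  have hnn : st none none = none := hid none
  obtain ⟨k, hk⟩ : ∃ k : G, hh = some k := by
    cases hh with
    | none =>
      exfalso
      have : (fun x => st x none) (some 0) = (fun x => st x none) none := by
        change st (some 0) none = st none none
        rw [hh1, hnn]
      have := (hcol none).1 this
      cases this
    | some k => exact ⟨k, rfl⟩
  subst hk
  obtain ⟨u, hu⟩ : ∃ u : G, st (some 0) none = some u := by
    rcases hx : st (some 0) none with _ | u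
    · exfalso
      have := (hrow (some 0)).1 (hh1.trans hx.symm)
      cases this
    · exact ⟨u, rfl⟩
  obtain ⟨v, hv⟩ : ∃ v : G, st none (some 0) = some v := by
    rcases hx : st none (some 0) with _ | v
    · exfalso
      have := (hrow none).1 (hx.trans hnn.symm)
      cases this
    · exact ⟨v, rfl⟩
  -- `v = k + u`
  have hvk : v = k + u := by
    have e1 := hlaw (some 0) (some k)
    rw [hh1, hv] at e1
    have e2 := htr k (some 0) none
    simp only [Option.map_some, Option.map_none, zero_add] at e2
    rw [e2, hu] at e1
    simp only [Option.map_some, Option.some.injEq] at e1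
    rw [e1, add_comm]
  set w : Option G → G := fun x => x.getD 0 with hw
  have hsum : ∀ F : Option G → Option G, Function.Bijective F → ∑ x, w (F x) = 0 := by
    intro F hF
    rw [hF.sum_comp w, Fintype.sum_option]
    change (0 : G) + ∑ z : G, z = 0
    rw [hσ, add_zero]
  have s1 := hsum _ (hrow (some 0))
  rw [Fintype.sum_option, hu] at s1
  have s2 := hsum _ (hcol (some 0))
  rw [Fintype.sum_option, hv] at s2
  change u + ∑ z : G, w (st (some 0) (some z)) = 0 at s1
  change v + ∑ z : G, w (st (some z) (some 0)) = 0 at s2
  have s3 : ∀ z : G, w (st (some z) (some 0)) =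
      (w (st (some 0) (some (-z))) + z) + (if -z = k then k else 0) := by
    intro z
    have e1 := htr z (some 0) (some (-z))
    simp only [Option.map_some, zero_add, neg_add_cancel] at e1
    rw [e1]
    by_cases hz : -z = k
    · rw [if_pos hz, hz, hh1]
      change (0 : G) = 0 + z + k
      rw [← hz, zero_add, add_neg_cancel]
    · rw [if_neg hz]
      rcases hx : st (some 0) (some (-z)) with _ | t
      · exfalso
        have := (hrow (some 0)).1 (hx.trans hh1.symm)
        exact hz (Option.some.inj this)
      · change t + z = t + z + 0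
        rw [add_zero]
  have s6 : ∑ z : G, w (st (some 0) (some (-z))) = ∑ z : G, w (st (some 0) (some z)) :=
    Equiv.sum_comp (Equiv.neg G) (fun z => w (st (some 0) (some z)))
  have s4 : ∑ z : G, (if -z = k then k else 0) = k := by
    have e : ∑ z : G, (if -z = k then k else 0) = ∑ z : G, (if z = k then k else 0) :=
      Equiv.sum_comp (Equiv.neg G) (fun z => if z = k then k else 0)
    rw [e]
    simp
  rw [Finset.sum_congr rfl (fun z _ => s3 z), Finset.sum_add_distrib, Finset.sum_add_distrib, hσ,
    s6, s4, add_zero] at s2
  have s5 : k + k = 0 := by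
    have : v + (∑ z : G, w (st (some 0) (some z)) + k) -
      (u + ∑ z : G, w (st (some 0) (some z))) = 0 := by rw [s1, s2, sub_zero]
    rw [hvk] at this
    rw [← this]
    abel
  have hk0 := hno k s5
  rw [hk0] at hh1
  rw [hid (some 0)] at hh1
  cases hh1

end Pool.Agent.H680Q
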